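import Pool.Agent.D0H39.NG.Stm2

/-!
# NG26: parametrizations in cotangent coordinates
-/

set_option autoImplicit false

open Set Filter Topology Metric Function
open scoped ContDiff RealInnerProductSpace NNReal

noncomputable section

namespace Pool.Agent.D0H7.NG

open Pool.Agent.D0H39.NG

theorem t_FPAR (hom : S_FOM) : S_FPAR := by
  intro m k N F κ Λ hκ hΛ w₀ hw₀
  obtain ⟨G0, hG0, hG00⟩ := hΛ.mfd _ hw₀
  obtain ⟨κ', hκ's, hκ'1, hκ'2⟩ := hκ.inv w₀
  -- a small ball
  have hcont : ContinuousAt G0 0 := hG0.smooth.continuous.continuousAt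
  have hev : ∀ᶠ s in 𝓝 (0 : E k), G0 s ∈ CT N → κ (κ' (G0 s)) = G0 s := by
    have h1 : Tendsto G0 (𝓝 0) (𝓝 (κ w₀)) := by
      have := hcont.tendsto
      rwa [hG00] at this
    exact h1.eventually hκ'2
  obtain ⟨δ, hδ, hball⟩ := Metric.eventually_nhds_iff_ball.1 hev
  set β := OpenPartialHomeomorph.univBall (0 : E k) δ with hβ
  have hβs : ContDiff ℝ ∞ β := OpenPartialHomeomorph.contDiff_univBall
  have hβmem : ∀ s, β s ∈ ball (0 : E k) δ := by
    intro s
    have h1 : s ∈ β.source := by
      rw [hβ, OpenPartialHomeomorph.univBall_source]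
      exact mem_univ _
    have h2 := β.map_source h1
    rwa [hβ, OpenPartialHomeomorph.univBall_target _ hδ] at h2
  have hβinj : Injective β := by
    intro s t hst
    have h1 : ∀ u : E k, u ∈ β.source := by
      intro u
      rw [hβ, OpenPartialHomeomorph.univBall_source]
      exact mem_univ _
    exact β.injOn (h1 s) (h1 t) hst
  have hβ0 : β 0 = 0 := by
    rw [hβ, OpenPartialHomeomorph.univBall_apply_zero]
  have hβopen : ∀ V : Set (E k), IsOpen V → IsOpen (β '' V) := by
    intro V hV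
    refine β.isOpen_image_of_subset_source hV ?_
    rw [hβ, OpenPartialHomeomorph.univBall_source]
    exact subset_univ _
  have hβimm : ∀ s v, fderiv ℝ β s v = 0 → v = 0 := by
    intro s v hv
    have h1 : ContDiffOn ℝ ∞ β.symm (ball (0 : E k) δ) :=
      OpenPartialHomeomorph.contDiffOn_univBall_symm
    have h2 : DifferentiableAt ℝ β.symm (β s) :=
      ((h1.contDiffAt (isOpen_ball.mem_nhds (hβmem s))).differentiableAt (by simp))
    have h3 : DifferentiableAt ℝ β s := (hβs.differentiable (by simp)) s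
    have h4 : (fun u => β.symm (β u)) = fun u => u := by
      funext u
      refine β.left_inv ?_
      rw [hβ, OpenPartialHomeomorph.univBall_source]
      exact mem_univ _
    have h5 : fderiv ℝ (fun u => β.symm (β u)) s = (fderiv ℝ β.symm (β s)).comp (fderiv ℝ β s) :=
      fderiv_comp s h2 h3
    rw [h4] at h5
    have h6 : v = fderiv ℝ β.symm (β s) (fderiv ℝ β s v) := by
      have := congrArg (fun L => L v) h5
      simpa using this
    rw [h6, hv, map_zero]
  -- the parametrization
  set G : E k → E k × E k := fun s => κ' (G0 (β s)) with hG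
  have hmemΛ : ∀ s, G0 s ∈ Λ := by
    intro s
    obtain ⟨U', -, hU'⟩ := hG0.isOpen univ isOpen_univ
    have h1 : G0 s ∈ G0 '' univ := ⟨s, mem_univ _, rfl⟩
    rw [hU'] at h1
    exact h1.1
  have hκG : ∀ s, κ (G s) = G0 (β s) := by
    intro s
    exact hball _ (hβmem s) (hΛ.sub (hmemΛ _))
  have hGs : ContDiff ℝ ∞ G := hκ's.comp (hG0.smooth.comp hβs)
  have hGinj : Injective G := by
    intro s t hst
    have h1 : κ (G s) = κ (G t) := by rw [hst]
    rw [hκG, hκG] at h1
    exact hβinj (hG0.inj h1)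
  have hder : ∀ s v, fderiv ℝ κ (G s) (fderiv ℝ G s v) =
      fderiv ℝ G0 (β s) (fderiv ℝ β s v) := by
    intro s v
    have h1 : fderiv ℝ (fun u => κ (G u)) s = (fderiv ℝ κ (G s)).comp (fderiv ℝ G s) :=
      fderiv_comp s ((hκ.smooth.differentiable (by simp)) _) ((hGs.differentiable (by simp)) _)
    have h2 : fderiv ℝ (fun u => G0 (β u)) s = (fderiv ℝ G0 (β s)).comp (fderiv ℝ β s) :=
      fderiv_comp s ((hG0.smooth.differentiable (by simp)) _) ((hβs.differentiable (by simp)) _)
    have h3 : (fun u => κ (G u)) = fun u => G0 (β u) := funext hκG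
    rw [h3, h2] at h1
    have := congrArg (fun L => L v) h1
    simpa using this.symm
  have htan : ∀ t a, IsTan Λ (G0 t) (fderiv ℝ G0 t a) := by
    intro t a
    refine ⟨fun τ => G0 (t + τ • a), ?_, Eventually.of_forall fun τ => hmemΛ _, by simp, ?_⟩
    · exact (hG0.smooth.comp (by fun_prop)).contDiffAt
    · have h1 : HasDerivAt (fun τ : ℝ => t + τ • a) a 0 := by
        have := ((hasDerivAt_id (0 : ℝ)).smul_const a).const_add t
        simpa using this
      have h2 : HasFDerivAt G0 (fderiv ℝ G0 t) (t + (0 : ℝ) • a) := by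
        rw [zero_smul, add_zero]
        exact ((hG0.smooth.differentiable (by simp)) t).hasFDerivAt
      exact (h2.comp_hasDerivAt (0 : ℝ) h1).deriv
  refine ⟨G, ?_, ⟨hGs, hGinj, ?_⟩, ?_, ?_⟩
  · show κ' (G0 (β 0)) = w₀
    rw [hβ0, hG00]
    exact hκ'1.self_of_nhds
  · intro s v hv
    apply hβimm s v
    apply hG0.imm (β s)
    rw [← hder, hv, map_zero]
  · intro s v w
    have h1 := hom m k N F κ hκ (G s) (fderiv ℝ G s v) (fderiv ℝ G s w)
    rw [hder, hder] at h1
    have h2 := hΛ.iso _ (hmemΛ (β s)) _ _ (htan (β s) (fderiv ℝ β s v))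
      (htan (β s) (fderiv ℝ β s w))
    rw [h2] at h1
    exact h1.symm
  · intro V hV
    obtain ⟨U', hU'o, hU'⟩ := hG0.isOpen (β '' V) (hβopen V hV)
    refine ⟨κ ⁻¹' U', hU'o.preimage hκ.smooth.continuous, ?_⟩
    have h1 : G '' V = κ ⁻¹' (G0 '' (β '' V)) := by
      ext y
      constructor
      · rintro ⟨s, hs, rfl⟩
        exact ⟨β s, ⟨s, hs, rfl⟩, (hκG s).symm⟩
      · rintro ⟨t, ⟨s, hs, rfl⟩, hy⟩
        refine ⟨s, hs, ?_⟩
        apply hκ.inj
        rw [hκG, hy]
    rw [h1, hU', preimage_inter]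

end Pool.Agent.D0H7.NG
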